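import Pool.Agent.Y45.TG.Stm

/-!
# Project TG: the wreath product (job TG4)
-/

set_option autoImplicit false

namespace Pool.Agent.Y569.TG

open Pool.Agent.Y45.TG

/-- elements of the wreath product of `X` by the cyclic group of order `p` -/
@[ext] structure Wr (p : ℕ) (X : Type) where
  /-- the coordinates -/
  f : ZMod p → X
  /-- the shift -/
  k : ZMod p

section basic

variable {p : ℕ} {X : Type} [Group X]

instance instMulWr : Mul (Wr p X) := ⟨fun a b => ⟨fun i => a.f i * b.f (i + a.k), a.k + b.k⟩⟩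
instance instOneWr : One (Wr p X) := ⟨⟨fun _ => 1, 0⟩⟩
instance instInvWr : Inv (Wr p X) := ⟨fun a => ⟨fun i => (a.f (i - a.k))⁻¹, -a.k⟩⟩

theorem mul_f (a b : Wr p X) (i : ZMod p) : (a * b).f i = a.f i * b.f (i + a.k) := rfl
theorem mul_k (a b : Wr p X) : (a * b).k = a.k + b.k := rfl
theorem one_f (i : ZMod p) : (1 : Wr p X).f i = 1 := rfl
theorem one_k : (1 : Wr p X).k = 0 := rfl
theorem inv_f (a : Wr p X) (i : ZMod p) : (a⁻¹).f i = (a.f (i - a.k))⁻¹ := rfl
theorem inv_k (a : Wr p X) : (a⁻¹).k = -a.k := rfl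

instance instGroupWr : Group (Wr p X) :=
  Group.ofLeftAxioms
    (fun a b c => by
      ext i
      · simp only [mul_f, mul_k, mul_assoc, add_assoc]
      · simp only [mul_k, add_assoc])
    (fun a => by
      ext i
      · simp only [mul_f, one_f, one_k, add_zero, one_mul]
      · simp only [mul_k, one_k, zero_add])
    (fun a => by
      ext i
      · simp only [mul_f, inv_f, inv_k, one_f, ← sub_eq_add_neg, inv_mul_cancel]
      · simp only [mul_k, inv_k, one_k, neg_add_cancel])

/-- the shift as a homomorphism -/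
def kHom (p : ℕ) (X : Type) [Group X] : Wr p X →* Multiplicative (ZMod p) where
  toFun a := Multiplicative.ofAdd a.k
  map_one' := rfl
  map_mul' _ _ := rfl

/-- functoriality -/
def wmap {Y : Type} [Group Y] (φ : X →* Y) : Wr p X →* Wr p Y where
  toFun a := ⟨fun i => φ (a.f i), a.k⟩
  map_one' := by
    ext i
    · simp [one_f]
    · rfl
  map_mul' a b := by
    ext i
    · simp [mul_f]
    · rfl

theorem wmap_f {Y : Type} [Group Y] (φ : X →* Y) (a : Wr p X) (i : ZMod p) :
    (wmap φ a).f i = φ (a.f i) := rfl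

theorem wmap_k {Y : Type} [Group Y] (φ : X →* Y) (a : Wr p X) : (wmap φ a).k = a.k := rfl

theorem pow_k (a : Wr p X) (n : ℕ) : (a ^ n).k = n * a.k := by
  induction n with
  | zero => simp [one_k]
  | succ n ih => rw [pow_succ, mul_k, ih]; push_cast; ring

theorem zpow_k (a : Wr p X) (n : ℤ) : (a ^ n).k = n * a.k := by
  have h := map_zpow (kHom p X) a n
  have h2 : Multiplicative.toAdd (kHom p X (a ^ n)) = Multiplicative.toAdd ((kHom p X a) ^ n) := by
    rw [h]
  rw [toAdd_zpow] at h2
  change (a ^ n).k = n • a.k at h2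
  rw [h2, zsmul_eq_mul]

end basic

section gen

variable (p : ℕ)

/-- the generator -/
def gb : Wr p (Multiplicative (ZMod p)) :=
  ⟨fun i => if i = 0 then Multiplicative.ofAdd 1 else 1, 1⟩

theorem gb_pow [Fact p.Prime] (m : ℕ) (hm : m ≤ p) (i : ZMod p) :
    (gb p ^ m).f i = if (-i).val < m then Multiplicative.ofAdd 1 else 1 := by
  induction m with
  | zero => simp [one_f]
  | succ m ih =>
    rw [pow_succ, mul_f, ih (by omega), pow_k]
    have hk : (gb p).k = 1 := rfl
    rw [hk, mul_one]
    have hf : (gb p).f (i + (m : ZMod p)) =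
        if i + (m : ZMod p) = 0 then Multiplicative.ofAdd 1 else 1 := rfl
    rw [hf]
    have hiff : i + (m : ZMod p) = 0 ↔ (-i).val = m := by
      constructor
      · intro h
        have : -i = (m : ZMod p) := by rw [neg_eq_iff_add_eq_zero]; exact h
        rw [this, ZMod.val_natCast_of_lt (by omega)]
      · intro h
        have : ((-i).val : ZMod p) = -i := ZMod.natCast_zmod_val (-i)
        rw [h] at this
        rw [this]; ring
    by_cases h1 : (-i).val < m
    · rw [if_pos h1, if_neg (by rw [hiff]; omega), if_pos (by omega), mul_one]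
    · rw [if_neg h1]
      by_cases h2 : (-i).val = m
      · rw [if_pos (hiff.2 h2), if_pos (by omega), one_mul]
      · rw [if_neg (by rw [hiff]; exact h2), if_neg (by omega), one_mul]

theorem gb_pow_p [Fact p.Prime] (n : ℤ) (i : ZMod p) :
    ((gb p ^ p) ^ n).f i = Multiplicative.ofAdd (n : ZMod p) := by
  set c : Wr p (Multiplicative (ZMod p)) := gb p ^ p with hc
  have hck : c.k = 0 := by rw [hc, pow_k]; simp
  have hcf : ∀ i, c.f i = Multiplicative.ofAdd 1 := by
    intro i
    rw [hc, gb_pow p p le_rfl, if_pos (ZMod.val_lt _)]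
  have hnat : ∀ m : ℕ, ∀ i, (c ^ m).f i = Multiplicative.ofAdd (m : ZMod p) := by
    intro m
    induction m with
    | zero => intro i; simp [one_f]
    | succ m ih =>
      intro i
      rw [pow_succ, mul_f, ih, hcf, ← ofAdd_add]
      push_cast
      rfl
  rcases Int.eq_nat_or_neg n with ⟨m, rfl | rfl⟩
  · rw [zpow_natCast, hnat]; simp
  · rw [zpow_neg, zpow_natCast, inv_f, hnat]; simp

end gen

section main

variable {p : ℕ} {X : Type} [Group X] (φ : X →* Multiplicative (ZMod p))

/-- the group `G` -/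
def GG : Subgroup (Wr p X) := (Subgroup.zpowers (gb p)).comap (wmap φ)

/-- the base subgroup -/
def BB : Subgroup (GG φ) := ((kHom p X).comp (GG φ).subtype).ker

theorem mem_BB (g : GG φ) : g ∈ BB φ ↔ g.1.k = 0 := by
  unfold BB
  rw [MonoidHom.mem_ker]
  constructor
  · intro h
    exact Multiplicative.ofAdd.injective h
  · intro h
    show Multiplicative.ofAdd g.1.k = 1
    rw [h]; rfl

/-- the coordinates -/
def crd (j : ZMod p) : BB φ →* X where
  toFun g := g.1.1.f j
  map_one' := rfl
  map_mul' a b := by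
    show (a.1.1 * b.1.1).f j = _
    rw [mul_f, (mem_BB φ a.1).1 a.2, add_zero]

theorem mem_GG (w : Wr p X) : w ∈ GG φ ↔ ∃ n : ℤ, gb p ^ n = wmap φ w := by
  unfold GG
  rw [Subgroup.mem_comap, Subgroup.mem_zpowers_iff]

/-- the kernel -/
def KK : Subgroup (GG φ) := ((wmap φ).comp (GG φ).subtype).ker

theorem mem_KK (g : GG φ) : g ∈ KK φ ↔ g.1.k = 0 ∧ ∀ i, φ (g.1.f i) = 1 := by
  unfold KK
  rw [MonoidHom.mem_ker]
  constructor
  · intro h
    have h' : wmap φ g.1 = 1 := h
    refine ⟨?_, fun i => ?_⟩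
    · rw [← wmap_k φ, h', one_k]
    · rw [← wmap_f φ, h', one_f]
  · rintro ⟨h1, h2⟩
    show wmap φ g.1 = 1
    ext i
    · rw [wmap_f, h2, one_f]
    · rw [wmap_k, h1, one_k]

/-- the elements of the kernel supported at zero -/
def HH : Subgroup (GG φ) where
  carrier := {g | g ∈ KK φ ∧ ∀ i, i ≠ 0 → g.1.f i = 1}
  mul_mem' := by
    rintro a b ⟨ha, ha'⟩ ⟨hb, hb'⟩
    refine ⟨mul_mem ha hb, fun i hi => ?_⟩
    show (a.1 * b.1).f i = 1
    rw [mul_f, ha' i hi, one_mul, ((mem_KK φ a).1 ha).1, add_zero, hb' i hi]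
  one_mem' := ⟨one_mem _, fun i _ => rfl⟩
  inv_mem' := by
    rintro a ⟨ha, ha'⟩
    refine ⟨inv_mem ha, fun i hi => ?_⟩
    show (a.1⁻¹).f i = 1
    rw [inv_f, ((mem_KK φ a).1 ha).1, sub_zero, ha' i hi, inv_one]

end main

theorem wreath : WreathStmt := by
  intro p X _ φ hp ⟨α, hα⟩ ⟨h, hh1, hh2⟩
  have : Fact p.Prime := ⟨hp⟩
  have : NeZero p := ⟨hp.ne_zero⟩
  refine ⟨GG φ, inferInstance, BB φ, fun i => crd φ (ZMod.finEquiv p i), ?_, ?_, ?_, ?_⟩
  · -- injectivity
    intro g hg
    apply Subtype.ext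
    apply Subtype.ext
    ext i
    · have := hg ((ZMod.finEquiv p).symm i)
      rw [RingEquiv.apply_symm_apply] at this
      exact this
    · exact (mem_BB φ g.1).1 g.2
  · -- commutators
    intro x y
    obtain ⟨m, hm⟩ := (mem_GG φ x.1).1 x.2
    obtain ⟨n, hn⟩ := (mem_GG φ y.1).1 y.2
    have hcom : wmap φ (x.1 * y.1 * x.1⁻¹ * y.1⁻¹) = 1 := by
      rw [map_mul, map_mul, map_mul, map_inv, map_inv, ← hm, ← hn, ← zpow_add, ← zpow_neg,
        ← zpow_neg, ← zpow_add, ← zpow_add]
      have : m + n + -m + -n = 0 := by ring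
      rw [this, zpow_zero]
    have hK : x * y * x⁻¹ * y⁻¹ ∈ KK φ := hcom
    obtain ⟨h1, h2⟩ := (mem_KK φ _).1 hK
    exact ⟨(mem_BB φ _).2 h1, fun i => h2 _⟩
  · -- powers
    intro x
    obtain ⟨n, hn⟩ := (mem_GG φ x.1).1 x.2
    have hk : (x.1 ^ p).k = 0 := by rw [pow_k]; simp
    refine ⟨(mem_BB φ _).2 hk, fun hx i => ?_⟩
    show φ ((x.1 ^ p).f _) ≠ 1
    rw [← wmap_f φ, map_pow, ← hn, ← zpow_natCast, ← zpow_mul, mul_comm, zpow_mul, zpow_natCast,
      gb_pow_p]
    intro hcon
    have hn0 : (n : ZMod p) = 0 := Multiplicative.ofAdd.injective hcon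
    apply hx
    rw [mem_BB, ← wmap_k φ, ← hn, zpow_k, hn0, zero_mul]
  · -- the subnormal subgroup
    refine ⟨HH φ, ⟨2, fun i => if i = 0 then HH φ else if i = 1 then KK φ else ⊤, rfl, rfl, ?_⟩, ?_⟩
    · intro i hi
      interval_cases i
      · refine ⟨?_, ?_⟩
        · intro g hg
          exact hg.1
        · constructor
          intro a ha b
          rw [Subgroup.mem_subgroupOf] at ha ⊢
          have ha' : a.1 ∈ HH φ := ha
          have hak : a.1 ∈ KK φ := a.2
          have hbk : b.1 ∈ KK φ := b.2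
          show b.1 * a.1 * b.1⁻¹ ∈ HH φ
          refine ⟨mul_mem (mul_mem hbk hak) (inv_mem hbk), fun i hi => ?_⟩
          show (b.1.1 * a.1.1 * b.1.1⁻¹).f i = 1
          have h1 := ((mem_KK φ _).1 hbk).1
          have h2 := ((mem_KK φ _).1 hak).1
          rw [mul_f, mul_f, mul_k, inv_f, h1, h2]
          simp only [add_zero, sub_zero]
          rw [ha'.2 i hi, mul_one, mul_inv_cancel]
      · refine ⟨?_, ?_⟩
        · intro g _
          exact Subgroup.mem_top g
        · constructor
          intro a ha b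
          rw [Subgroup.mem_subgroupOf] at ha ⊢
          have ha' : a.1 ∈ KK φ := ha
          show b.1 * a.1 * b.1⁻¹ ∈ KK φ
          have : (KK φ).Normal := by unfold KK; infer_instance
          exact Subgroup.Normal.conj_mem inferInstance a.1 ha' b.1
    · intro hnor
      -- the element supported at zero
      let a : Wr p X := ⟨fun i => if i = 0 then h else 1, 0⟩
      have haK : wmap φ a = 1 := by
        ext i
        · rw [wmap_f, one_f]
          show φ (if i = 0 then h else 1) = 1
          split_ifs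
          · exact hh2
          · exact map_one φ
        · rfl
      have haG : a ∈ GG φ := (mem_GG φ a).2 ⟨0, by rw [haK, zpow_zero]⟩
      let b : Wr p X := ⟨fun i => if i = 0 then α else 1, 1⟩
      have hbG : b ∈ GG φ := by
        refine (mem_GG φ b).2 ⟨1, ?_⟩
        rw [zpow_one]
        ext i
        · rw [wmap_f]
          show (if i = 0 then Multiplicative.ofAdd 1 else 1) = φ (if i = 0 then α else 1)
          split_ifs
          · exact hα.symm
          · exact (map_one φ).symm
        · rfl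
      have haH : (⟨a, haG⟩ : GG φ) ∈ HH φ := by
        refine ⟨haK, fun i hi => ?_⟩
        show (if i = 0 then h else 1) = 1
        rw [if_neg hi]
      have hcon := hnor.conj_mem ⟨a, haG⟩ haH ⟨b, hbG⟩
      have hc2 := hcon.2 (-1) (by
        rw [neg_ne_zero]
        exact one_ne_zero)
      have hc3 : (b * a * b⁻¹).f (-1) = 1 := hc2
      rw [mul_f, mul_f, mul_k, inv_f] at hc3
      have hbk : b.k = 1 := rfl
      have hak : a.k = 0 := rfl
      rw [hbk, hak, add_zero, add_sub_cancel_right, neg_add_cancel, mul_assoc] at hc3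
      have hb1 : b.f (-1) = 1 := by
        show (if (-1 : ZMod p) = 0 then α else 1) = 1
        rw [if_neg (by rw [neg_eq_zero]; exact one_ne_zero)]
      have ha0 : a.f 0 = h := if_pos rfl
      rw [hb1, ha0, inv_one, mul_one, one_mul] at hc3
      exact hh1 hc3

end Pool.Agent.Y569.TG
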